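import Pool.Agent.H97.HV.Targets4
import Pool.Agent.H14.HW.TSH

/-!
# WCHC: choice functions in HOD(V_ (min γ ξ)) with parameters
-/

open Ordinal Cardinal Order Set
open scoped ZFSet

universe u

namespace HD.HW.H62

open HD.PRK HD.HV Pool.Agent.H54.WM

/-! ## Definability -/

section

variable (g : Ordinal.{u}) (φ : Fml)

/-- `y` is a witness for `w`, the functions being the entries of `p` -/
def S (p y w : ZFSet.{u}) : Prop :=
  Sat (NV g) φ (cons y fun n => ap (pr n p) (pr n w))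

theorem dz_S (i l m : ℕ) : DZ.{u} fun v => S g φ (v i) (v l) (v m) := by
  have h := HD.HW.H14.TSH.dz_sat g φ (fun n => Nat.casesOn n (.vr l) fun k => .fn i k k m)
  refine h.congr fun v => ?_
  unfold S
  have e : (cons (v l) fun n => ap (pr n (v i)) (pr n (v m))) =
      fun n => HD.HW.H14.TSH.tv v ((fun n => Nat.casesOn n (.vr l) fun k => .fn i k k m :
        ℕ → HD.HW.H14.TSH.Ter) n) := by
    funext n
    rcases n with _ | n <;> rfl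
  rw [e]

theorem dz_pmem (a b c : ℕ) : DZ.{u} fun v => ZFSet.pair (v a) (v b) ∈ v c := by
  refine (DZ.exMem (R := fun q v => q = ZFSet.pair (v a) (v b)) c
    (D0.pair 0 (a + 1) (b + 1)).dz).congr fun v => ?_
  simp

/-- `y` is a witness for `w`, and it is the value of the relation `e` at `s` -/
def G (p e s w y : ZFSet.{u}) : Prop :=
  (NV g y ∧ S g φ p y w) ∧ ∀ y', ZFSet.pair s y' ∈ e ↔ y' = y

theorem dz_G (i j k l m : ℕ) : DZ.{u} fun v => G g φ (v i) (v j) (v k) (v l) (v m) := by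
  refine ((dz_nv g m).and (dz_S g φ i m l)).and ?_
  refine DZ.all (R := fun y' v => ZFSet.pair (v k) y' ∈ v j ↔ y' = v m) ?_
  exact (dz_pmem (k + 1) 0 (j + 1)).iff (DZ.eq 0 (m + 1))

variable {g φ}

theorem G.uni {p e s w y z : ZFSet.{u}} (h1 : G g φ p e s w y) (h2 : G g φ p e s w z) :
    y = z := (h2.2 y).1 ((h1.2 y).2 rfl)

end

/-! ## The choice function -/

section

variable (g : Ordinal.{u}) (φ : Fml) (en : Ordinal.{u} → ZFSet.{u}) (p : ZFSet.{u})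

/-- `c` and `s` code a witness for `w` -/
def Sel (s w : ZFSet.{u}) (c : Ordinal.{u}) : Prop := ∃ y, G g φ p (en c) s w y

/-- the witness with the least code `c` for `s` -/
noncomputable def yw (s w : ZFSet.{u}) : ZFSet.{u} :=
  Classical.epsilon fun y => G g φ p (en (sInf {c | Sel g φ en p s w c})) s w y

/-- the choice function -/
noncomputable def ch (A : ZFSet.{u}) : ZFSet.{u} :=
  ZFSet.sep (fun q => ∃ w ∈ A, ∃ s ∈ A, (∃ c, Sel g φ en p s w c) ∧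
      q = ZFSet.pair (ZFSet.pair w s) (yw g φ en p s w))
    (ZFSet.range fun t : {w // w ∈ A} × {w // w ∈ A} =>
      ZFSet.pair (ZFSet.pair t.1.1 t.2.1) (yw g φ en p t.2.1 t.1.1))

variable {g φ en p}

theorem g_yw {s w : ZFSet.{u}} (h : ∃ c, Sel g φ en p s w c) :
    G g φ p (en (sInf {c | Sel g φ en p s w c})) s w (yw g φ en p s w) :=
  Classical.epsilon_spec (p := fun y => G g φ p (en (sInf {c | Sel g φ en p s w c})) s w y)
    (csInf_mem (s := {c | Sel g φ en p s w c}) h)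

theorem mem_ch {A q : ZFSet.{u}} : q ∈ ch g φ en p A ↔ ∃ w ∈ A, ∃ s ∈ A,
    (∃ c, Sel g φ en p s w c) ∧ q = ZFSet.pair (ZFSet.pair w s) (yw g φ en p s w) := by
  unfold ch
  rw [ZFSet.mem_sep]
  refine ⟨fun h => h.2, fun h => ⟨?_, h⟩⟩
  obtain ⟨w, hw, s, hs, -, rfl⟩ := h
  rw [ZFSet.mem_range]
  exact ⟨⟨⟨w, hw⟩, ⟨s, hs⟩⟩, rfl⟩

theorem ap_ch {A w s : ZFSet.{u}} (hw : w ∈ A) (hs : s ∈ A) (h : ∃ c, Sel g φ en p s w c) :
    ap (ch g φ en p A) (ZFSet.pair w s) = yw g φ en p s w := by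
  ext z
  rw [mem_ap]
  constructor
  · rintro ⟨y, hy, hz⟩
    obtain ⟨w', -, s', -, -, h1⟩ := mem_ch.1 hy
    obtain ⟨h2, rfl⟩ := ZFSet.pair_inj.1 h1
    obtain ⟨rfl, rfl⟩ := ZFSet.pair_inj.1 h2
    exact hz
  · intro hz
    exact ⟨_, mem_ch.2 ⟨w, hw, s, hs, h, rfl⟩, hz⟩

/-- description of the elements of the choice function -/
theorem mem_ch' {A q : ZFSet.{u}} : q ∈ ch g φ en p A ↔ ∃ w ∈ A, ∃ s ∈ A,
    ∃ c e : ZFSet.{u}, (c.IsOrdinal ∧ e = en c.rank) ∧ ∃ y, G g φ p e s w y ∧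
      (∀ d ∈ c, ∀ e', d.IsOrdinal ∧ e' = en d.rank → ∀ y', ¬ G g φ p e' s w y') ∧
        ∃ r, r = ZFSet.pair w s ∧ q = ZFSet.pair r y := by
  rw [mem_ch]
  refine exists_congr fun w => and_congr_right fun _ => exists_congr fun s =>
    and_congr_right fun _ => ?_
  constructor
  · rintro ⟨h, rfl⟩
    refine ⟨(sInf {c | Sel g φ en p s w c}).toZFSet, _, ⟨ZFSet.isOrdinal_toZFSet _, rfl⟩,
      yw g φ en p s w, ?_, ?_, _, rfl, rfl⟩
    · rw [rank_toZFSet]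
      exact g_yw h
    · rintro d hd e' ⟨-, rfl⟩ y' h1
      obtain ⟨b, hb, rfl⟩ := mem_toZFSet_iff.1 hd
      rw [rank_toZFSet] at h1
      exact absurd (csInf_le' (s := {c | Sel g φ en p s w c}) ⟨y', h1⟩) (not_le.2 hb)
  · rintro ⟨c, e, ⟨hc, rfl⟩, y, h1, h2, r, rfl, rfl⟩
    have h3 : Sel g φ en p s w c.rank := ⟨y, h1⟩
    refine ⟨⟨_, h3⟩, ?_⟩
    have h4 : sInf {c | Sel g φ en p s w c} = c.rank := by
      refine le_antisymm (csInf_le' (s := {c | Sel g φ en p s w c}) h3)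
        (le_csInf ⟨_, h3⟩ ?_)
      rintro b ⟨y', hb⟩
      by_contra hlt
      rw [not_le] at hlt
      refine h2 b.toZFSet ?_ (en b) ⟨ZFSet.isOrdinal_toZFSet _, by rw [rank_toZFSet]⟩ y' hb
      have h5 : b.toZFSet ∈ c.rank.toZFSet := toZFSet_mem_toZFSet_iff.2 hlt
      rwa [hc.toZFSet_rank_eq] at h5
    have h5 := g_yw ⟨_, h3⟩
    rw [h4] at h5
    rw [h1.uni h5]

theorem nv_ch (hen : EN en) (hg : IsSuccLimit g) (hp : NV g p) {A : ZFSet.{u}} (hA : NV g A) :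
    NV g (ch g φ en p A) := by
  have he : ∀ i l : ℕ, DZ.{u} fun v => (v i).IsOrdinal ∧ v l = en (v i).rank := fun i l =>
    hen.dz.ren fun n => if n = 0 then i else l
  refine nv_of hg (P := fun q A p _ => ∃ w ∈ A, ∃ s ∈ A,
    ∃ c e : ZFSet.{u}, (c.IsOrdinal ∧ e = en c.rank) ∧ ∃ y, G g φ p e s w y ∧
      (∀ d ∈ c, ∀ e', d.IsOrdinal ∧ e' = en d.rank → ∀ y', ¬ G g φ p e' s w y') ∧
        ∃ r, r = ZFSet.pair w s ∧ q = ZFSet.pair r y) ?_ hA hp hp (fun z => mem_ch')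
    fun z hz => ?_
  · -- q = v 0, A = v 1, p = v 2
    refine DZ.exMem (R := fun w v => ∃ s ∈ v 1,
      ∃ c e : ZFSet.{u}, (c.IsOrdinal ∧ e = en c.rank) ∧ ∃ y, G g φ (v 2) e s w y ∧
      (∀ d ∈ c, ∀ e', d.IsOrdinal ∧ e' = en d.rank → ∀ y', ¬ G g φ (v 2) e' s w y') ∧
        ∃ r, r = ZFSet.pair w s ∧ v 0 = ZFSet.pair r y) 1 ?_
    -- w = v 0, q = v 1, A = v 2, p = v 3
    refine DZ.exMem (R := fun s v =>
      ∃ c e : ZFSet.{u}, (c.IsOrdinal ∧ e = en c.rank) ∧ ∃ y, G g φ (v 3) e s (v 0) y ∧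
      (∀ d ∈ c, ∀ e', d.IsOrdinal ∧ e' = en d.rank → ∀ y', ¬ G g φ (v 3) e' s (v 0) y') ∧
        ∃ r, r = ZFSet.pair (v 0) s ∧ v 1 = ZFSet.pair r y) 2 ?_
    -- s = v 0, w = v 1, q = v 2, A = v 3, p = v 4
    refine DZ.ex (R := fun c v =>
      ∃ e : ZFSet.{u}, (c.IsOrdinal ∧ e = en c.rank) ∧ ∃ y, G g φ (v 4) e (v 0) (v 1) y ∧
      (∀ d ∈ c, ∀ e', d.IsOrdinal ∧ e' = en d.rank →
        ∀ y', ¬ G g φ (v 4) e' (v 0) (v 1) y') ∧
        ∃ r, r = ZFSet.pair (v 1) (v 0) ∧ v 2 = ZFSet.pair r y) ?_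
    -- c = v 0, s = v 1, w = v 2, q = v 3, A = v 4, p = v 5
    refine DZ.ex (R := fun e v =>
      ((v 0).IsOrdinal ∧ e = en (v 0).rank) ∧ ∃ y, G g φ (v 5) e (v 1) (v 2) y ∧
      (∀ d ∈ v 0, ∀ e', d.IsOrdinal ∧ e' = en d.rank →
        ∀ y', ¬ G g φ (v 5) e' (v 1) (v 2) y') ∧
        ∃ r, r = ZFSet.pair (v 2) (v 1) ∧ v 3 = ZFSet.pair r y) ?_
    -- e = v 0, c = v 1, s = v 2, w = v 3, q = v 4, A = v 5, p = v 6
    refine (he 1 0).and ?_
    refine DZ.ex (R := fun y v => G g φ (v 6) (v 0) (v 2) (v 3) y ∧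
      (∀ d ∈ v 1, ∀ e', d.IsOrdinal ∧ e' = en d.rank →
        ∀ y', ¬ G g φ (v 6) e' (v 2) (v 3) y') ∧
        ∃ r, r = ZFSet.pair (v 3) (v 2) ∧ v 4 = ZFSet.pair r y) ?_
    -- y = v 0, e = v 1, c = v 2, s = v 3, w = v 4, q = v 5, A = v 6, p = v 7
    refine (dz_G g φ 7 1 3 4 0).and (DZ.and ?_ ?_)
    · refine DZ.allMem (R := fun d v => ∀ e', d.IsOrdinal ∧ e' = en d.rank →
        ∀ y', ¬ G g φ (v 7) e' (v 3) (v 4) y') 2 ?_
      refine DZ.all (R := fun e' v => (v 0).IsOrdinal ∧ e' = en (v 0).rank →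
        ∀ y', ¬ G g φ (v 8) e' (v 4) (v 5) y') ?_
      refine (he 1 0).imp ?_
      refine DZ.all (R := fun y' v => ¬ G g φ (v 9) (v 0) (v 5) (v 6) y') ?_
      exact (dz_G g φ 10 1 6 7 0).not
    · refine DZ.ex (R := fun r v => r = ZFSet.pair (v 4) (v 3) ∧ v 5 = ZFSet.pair r (v 0)) ?_
      exact (D0.pair 0 5 4).dz.and (D0.pair 6 0 1).dz
  · obtain ⟨w, hw, s, hs, h, rfl⟩ := mem_ch.1 hz
    exact nv_pair hg (nv_pair hg (nv_tra _ hA _ hw) (nv_tra _ hA _ hs)) (g_yw h).1.1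

end

theorem pf_CHC : HD.HW.T_CHC.{u} := by
  intro γ ξ hg hξ φ f hf
  obtain ⟨en, hen⟩ := All.en.{u}
  obtain ⟨p, hp⟩ : ∃ p, p = tup ((List.range (bd φ)).map f) := ⟨_, rfl⟩
  have hpN : NV (min γ ξ) p := by
    rw [hp]
    refine nv_tup hg fun x hx => ?_
    obtain ⟨n, -, rfl⟩ := List.mem_map.1 hx
    exact hf n
  have hS : ∀ y w : ZFSet.{u}, Sat (NV (min γ ξ)) φ (cons y fun n => ap (f n) (pr n w)) ↔
      S (min γ ξ) φ p y w := by
    intro y w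
    refine sat_bd _ φ _ _ fun n hn => ?_
    rcases n with _ | n
    · rfl
    · have hn' : n < bd φ := Nat.lt_of_succ_lt hn
      have e : pr n p = f n := by
        rw [hp, pr_tup]
        unfold sv
        simp [hn']
      show ap (f n) (pr n w) = ap (pr n p) (pr n w)
      rw [e]
  refine ⟨ch (min γ ξ) φ en p (HW γ ξ), nv_ch hen hg hpN (nv_HW hg), ?_⟩
  rintro w hw ⟨y, hy, hs⟩
  obtain ⟨s, hsV, hsy⟩ := (nv_iff.1 hy).1
  obtain ⟨R, hR, h1⟩ := (Pool.Agent.H45.NF.pf_pa s y).1 hsy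
  obtain ⟨c, rfl⟩ := (hen.od R).1 hR
  have hsW : s ∈ HW γ ξ := by
    refine mem_HW.2 ⟨?_, nv_mem_V hsV⟩
    rw [ZFSet.mem_vonNeumann] at hsV ⊢
    exact hsV.trans_le (min_le_right _ _)
  have h : ∃ c, Sel (min γ ξ) φ en p s w c := ⟨c, y, ⟨hy, (hS y w).1 hs⟩, h1⟩
  refine ⟨s, hsW, ?_⟩
  rw [ap_ch hw hsW h, hS]
  exact (g_yw h).1.2

end HD.HW.H62
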